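import Mathlib
import Pool.Agent.W42.RG.Defs2
import Pool.Agent.W42.RN.Shear

set_option autoImplicit false
set_option linter.unusedSectionVars false
set_option linter.unusedVariables false

/-!
The shearing identity for limits of correlations, rotating flows.
-/

namespace Pool.Agent.W685.LY

open MeasureTheory Filter Topology Finset Pool.Agent.W42.RN Pool.Agent.W42.RL Pool.Agent.W42.RG

theorem t_RLSH : S_RLSH := by
  intro X _ μ _ T hT Z ω hω hZ x hx r hr hs N U hU j hN
  have hP : Act μ (pw T) := act_pw hT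
  have hfar : ∀ M : ℕ, ∀ᶠ n in (U : Filter (Fin N → ℤ)), ∀ i i', i ≠ i' → (M : ℤ) ≤ |n i - n i'| :=
    fun M => hU ⟨M, fun n hn => hn⟩
  obtain ⟨c, hc⟩ : ∃ c, ∀ᶠ n in (U : Filter (Fin N → ℤ)), ∀ i, |n i - n j| ≤ |n c - n j| := by
    by_contra hcon
    push Not at hcon
    have h1 : ∀ c, ∀ᶠ n in (U : Filter (Fin N → ℤ)), ¬ (∀ i, |n i - n j| ≤ |n c - n j|) := by
      intro c
      rw [Ultrafilter.eventually_not]
      intro h
      obtain ⟨i, hi⟩ := (h.and (hcon c)).exists
      obtain ⟨i', hi'⟩ := hi.2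
      exact absurd (hi.1 i') (not_le.2 hi')
    have h2 : ∀ᶠ n in (U : Filter (Fin N → ℤ)), ∀ c, ¬ (∀ i, |n i - n j| ≤ |n c - n j|) :=
      eventually_all.2 h1
    obtain ⟨n, hn⟩ := h2.exists
    have : Nonempty (Fin N) := ⟨j⟩
    obtain ⟨c, hc⟩ := Finite.exists_max (fun c => |n c - n j|)
    exact hn c hc
  have hcj : c ≠ j := by
    rintro rfl
    obtain ⟨i0, hi0⟩ := hN
    obtain ⟨n, hn1, hn2⟩ := (hc.and (hfar 1)).exists
    have h1 := hn1 i0
    have h2 := hn2 i0 c hi0
    rw [sub_self, abs_zero] at h1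
    push_cast at h2
    omega
  refine ⟨c, hcj, ?_⟩
  set D : (Fin N → ℤ) → ℝ := fun n => |r (n j - n c)| with hD
  have hDt : Tendsto D U atTop := by
    rw [tendsto_atTop]
    intro b
    obtain ⟨M, hM⟩ := hr.lim b
    filter_upwards [hfar M] with n hn
    exact hM _ (hn j c hcj.symm)
  have hD1 : ∀ᶠ n in (U : Filter (Fin N → ℤ)), 1 ≤ D n := hDt.eventually_ge_atTop 1
  obtain ⟨Q, hQ⟩ := hr.dbl
  have hm : ∀ i, ∀ᶠ n in (U : Filter (Fin N → ℤ)), |r (n i - n c)| ≤ Q * D n := by
    intro i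
    filter_upwards [hc] with n hn
    have h1 := hn i
    have h2 : |n i - n c| ≤ 2 * |n j - n c| := by
      have h3 : |n i - n c| ≤ |n i - n j| + |n j - n c| := abs_sub_le _ _ _
      rw [abs_sub_comm (n c)] at h1
      omega
    exact hQ _ _ h2
  have hlim : ∀ i, ∃ t, Tendsto (fun n : Fin N → ℤ => r (n i - n c) / D n) U (𝓝 t) := by
    intro i
    apply ultra_lim_real U _ Q
    filter_upwards [hm i, hD1] with n h1 h2
    rw [abs_div, abs_of_nonneg (by linarith : 0 ≤ D n), div_le_iff₀ (by linarith)]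
    exact h1
  choose ρ hρ using hlim
  have hsig : ∀ i, ∃ s : ℂ, ‖s‖ = 1 ∧
      Tendsto (fun n : Fin N → ℤ => ω ^ (n i - n c)) U (𝓝 s) := by
    intro i
    have hcomp : IsCompact (Metric.sphere (0 : ℂ) 1) := isCompact_sphere 0 1
    have hmem : ∀ n : Fin N → ℤ, ω ^ (n i - n c) ∈ Metric.sphere (0 : ℂ) 1 := by
      intro n
      rw [mem_sphere_zero_iff_norm, norm_zpow, hω, one_zpow]
    obtain ⟨s, hs1, hs2⟩ := hcomp.ultrafilter_le_nhds
      (U.map (fun n : Fin N → ℤ => ω ^ (n i - n c)))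
      (le_principal_iff.2 (Filter.mem_map.2 (Filter.univ_mem' hmem)))
    exact ⟨s, mem_sphere_zero_iff_norm.1 hs1, hs2⟩
  choose σ hσ1 hσ using hsig
  refine ⟨ρ, σ, hσ1, ?_, ?_, ?_⟩
  · have h1 : Tendsto (fun n : Fin N → ℤ => r (n c - n c) / D n) U (𝓝 0) := by
      have : (fun n : Fin N → ℤ => r (n c - n c) / D n) = fun _ => 0 := by
        funext n
        rw [sub_self, hr.zero, zero_div]
      rw [this]
      exact tendsto_const_nhds
    exact tendsto_nhds_unique (hρ c) h1
  · have h1 : Tendsto (fun n : Fin N → ℤ => |r (n j - n c) / D n|) U (𝓝 |ρ j|) := (hρ j).abs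
    have h2 : Tendsto (fun n : Fin N → ℤ => |r (n j - n c) / D n|) U (𝓝 1) := by
      refine tendsto_const_nhds.congr' ?_
      filter_upwards [hD1] with n hn
      rw [abs_div, abs_of_nonneg (by linarith : 0 ≤ D n)]
      have : |r (n j - n c)| = D n := rfl
      rw [this, div_self (by linarith)]
    have h3 := tendsto_nhds_unique h1 h2
    rcases (abs_eq zero_le_one).1 h3 with h | h
    · exact Or.inl h
    · exact Or.inr h
  · intro ζ f hf
    set g : Fin N → X → ℂ := fun i p => f i (Z ((ρ i : ℂ) * σ i * ζ) p) with hg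
    have hgB : ∀ i, Bd (g i) := fun i => (hf i).comp (hZ.mp _).measurable
    obtain ⟨K, hK1, hK⟩ := Bd.common hf
    set ε : (Fin N → ℤ) → ℝ := fun n => 1 / D n with hε
    have hε0 : Tendsto ε U (𝓝 0) := Tendsto.const_div_atTop hDt 1
    -- the errors
    have hE : ∀ i, Tendsto (fun n : Fin N → ℤ => ∫ q, ‖f i (pw T (n i - n c) (x (ε n) ζ q)) -
        g i (pw T (n i - n c) q)‖ ∂μ) U (𝓝 0) := by
      intro i
      have hB : Tendsto (fun n : Fin N → ℤ => ∫ q, ‖f i (Z (((ε n * r (n i - n c) : ℝ) : ℂ) *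
          ω ^ (n i - n c) * ζ) q) - f i (Z ((ρ i : ℂ) * σ i * ζ) q)‖ ∂μ) U (𝓝 0) := by
        have h0 : Tendsto (fun n : Fin N → ℤ => ε n * r (n i - n c)) U (𝓝 (ρ i)) := by
          refine (hρ i).congr fun n => ?_
          simp only [hε]
          ring
        have h1 : Tendsto (fun n : Fin N → ℤ => ((ε n * r (n i - n c) : ℝ) : ℂ) *
            ω ^ (n i - n c) * ζ) U (𝓝 ((ρ i : ℂ) * σ i * ζ)) :=
          (((Complex.continuous_ofReal.tendsto _).comp h0).mul (hσ i)).mul_const ζ
        exact (hZ.cont (f i) (hf i) ((ρ i : ℂ) * σ i * ζ)).comp h1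
      rw [Metric.tendsto_nhds]
      intro δ hδ
      obtain ⟨ε₀, hε₀, hs1⟩ := hs (f i) (hf i) ζ (|Q| + 1) (δ / 2 / 2) (by positivity) (by positivity)
      filter_upwards [hε0.eventually_lt_const hε₀, (Metric.tendsto_nhds.1 hB) (δ / 2) (by positivity),
        hD1, hm i] with n g1 g2 g3 g4
      have hDp : 0 < D n := by linarith
      have hεp : 0 < ε n := by simp only [hε]; positivity
      have hbd : ε n * |r (n i - n c)| ≤ |Q| + 1 := by
        have h1 : |r (n i - n c)| ≤ (|Q| + 1) * D n := by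
          have := le_abs_self Q
          nlinarith
        calc _ ≤ ε n * ((|Q| + 1) * D n) := mul_le_mul_of_nonneg_left h1 hεp.le
          _ = |Q| + 1 := by simp only [hε]; field_simp
      have g5 := hs1 (ε n) hεp g1 (n i - n c) hbd
      rw [Real.dist_eq, sub_zero, abs_of_nonneg (integral_nonneg fun p => norm_nonneg _)] at g2 ⊢
      set m := n i - n c with hm'
      set s : ℂ := ((ε n * r m : ℝ) : ℂ) * ω ^ m * ζ with hs'
      have b1 : Bd fun p => f i (pw T m (x (ε n) ζ p)) :=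
        ((hf i).comp (hP.mp m).measurable).comp (hx _ _).measurable
      have b2 : Bd fun p => f i (Z s (pw T m p)) :=
        ((hf i).comp (hZ.mp s).measurable).comp (hP.mp m).measurable
      have b3 : Bd fun p => f i (Z ((ρ i : ℂ) * σ i * ζ) (pw T m p)) :=
        ((hf i).comp (hZ.mp _).measurable).comp (hP.mp m).measurable
      have h6 : ∫ p, ‖f i (Z s (pw T m p)) - f i (Z ((ρ i : ℂ) * σ i * ζ) (pw T m p))‖ ∂μ =
          ∫ p, ‖f i (Z s p) - f i (Z ((ρ i : ℂ) * σ i * ζ) p)‖ ∂μ :=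
        comp_int (hP.mp m) (g := fun p => ‖f i (Z s p) - f i (Z ((ρ i : ℂ) * σ i * ζ) p)‖)
          (((hf i).comp (hZ.mp s).measurable).meas.sub ((hf i).comp (hZ.mp _).measurable).meas).norm
      have h7 : ∫ p, ‖f i (pw T m (x (ε n) ζ p)) - f i (Z ((ρ i : ℂ) * σ i * ζ) (pw T m p))‖ ∂μ ≤
          ∫ p, ‖f i (pw T m (x (ε n) ζ p)) - f i (Z s (pw T m p))‖ ∂μ +
          ∫ p, ‖f i (Z s (pw T m p)) - f i (Z ((ρ i : ℂ) * σ i * ζ) (pw T m p))‖ ∂μ := by
        have hi1 : Integrable (fun p => ‖f i (pw T m (x (ε n) ζ p)) - f i (Z s (pw T m p))‖) μ :=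
          (b1.int.sub b2.int).norm
        have hi2 : Integrable (fun p => ‖f i (Z s (pw T m p)) -
            f i (Z ((ρ i : ℂ) * σ i * ζ) (pw T m p))‖) μ :=
          (b2.int.sub b3.int).norm
        rw [← integral_add hi1 hi2]
        apply integral_mono (b1.int.sub b3.int).norm (hi1.add hi2)
        intro p
        exact norm_sub_le_norm_sub_add_norm_sub _ _ _
      rw [h6] at h7
      have : δ / 2 / 2 < δ / 2 := by linarith
      show ∫ p, ‖f i (pw T m (x (ε n) ζ p)) - f i (Z ((ρ i : ℂ) * σ i * ζ) (pw T m p))‖ ∂μ < δ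
      linarith
    have hsum : Tendsto (fun n : Fin N → ℤ => K ^ N * ∑ i, ∫ q, ‖f i (pw T (n i - n c)
        (x (ε n) ζ q)) - g i (pw T (n i - n c) q)‖ ∂μ) U (𝓝 0) := by
      have := (tendsto_finsetSum univ fun i _ => hE i).const_mul (K ^ N)
      simpa using this
    have hdiff : Tendsto (fun n : Fin N → ℤ => C μ (pw T) n f - C μ (pw T) n g) U (𝓝 0) := by
      refine squeeze_zero_norm (fun n => ?_) hsum
      rw [C_shift hP hf n (n c), C_shift hP hgB n (n c)]
      have h1 : ∫ q, ∏ i, f i (pw T (n i - n c) q) ∂μ =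
          ∫ q, ∏ i, f i (pw T (n i - n c) (x (ε n) ζ q)) ∂μ :=
        (comp_int (hx (ε n) ζ) (g := fun q => ∏ i, f i (pw T (n i - n c) q))
          (Bd.tuple hP hf _ _).meas).symm
      have b1 : Bd fun q => ∏ i, f i (pw T (n i - n c) (x (ε n) ζ q)) :=
        (Bd.tuple hP hf (fun i => n i - n c) univ).comp (hx (ε n) ζ).measurable
      have b2 : Bd fun q => ∏ i, g i (pw T (n i - n c) q) := Bd.tuple hP hgB _ _
      have hi : ∀ i, Integrable (fun q => ‖f i (pw T (n i - n c) (x (ε n) ζ q)) -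
          g i (pw T (n i - n c) q)‖) μ := fun i =>
        ((((hf i).comp (hP.mp _).measurable).comp (hx _ _).measurable).int.sub
          ((hgB i).comp (hP.mp (n i - n c)).measurable).int).norm
      rw [h1, ← integral_sub b1.int b2.int, ← integral_finsetSum _ fun i _ => hi i,
        ← integral_const_mul]
      refine (norm_integral_le_integral_norm _).trans ?_
      apply integral_mono (b1.int.sub b2.int).norm
        ((integrable_finsetSum _ fun i _ => hi i).const_mul _)
      intro q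
      have h2 := prod_sub_le univ (fun i => f i (pw T (n i - n c) (x (ε n) ζ q)))
        (fun i => g i (pw T (n i - n c) q)) K hK1 (fun i => hK i _) (fun i => hK i _)
      rw [card_univ, Fintype.card_fin] at h2
      exact h2
    apply L_eq hgB
    have := (tendsto_L (μ := μ) (P := pw T) (U := U) hf).sub hdiff
    simpa using this

end Pool.Agent.W685.LY
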